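import Pool.Agent.N89.GS.Stm
import Pool.Agent.W578.SA.TRK

/-!
Project GS: transfer of the separation of points of the fibres to large characteristic.
-/

set_option autoImplicit false

namespace Pool.Agent.N457.GS.TSF

open MvPolynomial NumberField Pool.Agent.W659 Pool.Agent.W659.SA Pool.Agent.N89.GS

/-- the variables: `V`, `W`, `u`, `u'`, `T`, `y`, `z`, `lam`, `lam'` -/
abbrev Vars (r s m n : ℕ) : Type :=
  ((Fin r × Fin 3) ⊕ (Fin r × Fin 3)) ⊕ ((Fin s ⊕ Fin s) ⊕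
    (((Fin n × Fin m) ⊕ (Fin n × Fin m)) ⊕
      (((Fin n × Fin n) × (Fin m × Fin m)) ⊕ (Fin n ⊕ Fin n))))

section

variable {r s m n : ℕ}

def vV (ij : Fin r × Fin 3) : Vars r s m n := Sum.inl (Sum.inl ij)
def vW (ij : Fin r × Fin 3) : Vars r s m n := Sum.inl (Sum.inr ij)
def vu (l : Fin s) : Vars r s m n := Sum.inr (Sum.inl (Sum.inl l))
def vu' (l : Fin s) : Vars r s m n := Sum.inr (Sum.inl (Sum.inr l))
def vx (l : Fin n × Fin m) : Vars r s m n := Sum.inr (Sum.inr (Sum.inl (Sum.inl l)))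
def vy (l : Fin n × Fin m) : Vars r s m n := Sum.inr (Sum.inr (Sum.inl (Sum.inr l)))
def vz (l : (Fin n × Fin n) × (Fin m × Fin m)) : Vars r s m n :=
  Sum.inr (Sum.inr (Sum.inr (Sum.inl l)))
def vl1 (l : Fin n) : Vars r s m n := Sum.inr (Sum.inr (Sum.inr (Sum.inr (Sum.inl l))))
def vl2 (l : Fin n) : Vars r s m n := Sum.inr (Sum.inr (Sum.inr (Sum.inr (Sum.inr l))))

/-- the embedding of the variables of `G` -/
def emb (l : Fin n) : ((Fin r × Fin 3) ⊕ (Fin s ⊕ Fin m)) → Vars r s m n :=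
  Sum.elim vV (Sum.elim vu (fun i => vx (l, i)))

end

/-- the equations in terms of the values -/
def Sol {O k : Type} [CommRing O] [Field k] (φ : O →+* k) {r s m : ℕ} (a b : Fin r → ℤ)
    {J ι : Type} (G : J → Pol O r s m) (Λ : ι → Pol O r s m) (n : ℕ)
    (x : Vars r s m n → k) : Prop :=
  (∀ i : Fin r, x (vV (i, 1)) ^ 2 * x (vV (i, 2)) - (x (vV (i, 0)) ^ 3 +
      (a i : k) * x (vV (i, 0)) * x (vV (i, 2)) ^ 2 + (b i : k) * x (vV (i, 2)) ^ 3) = 0) ∧
  (∀ i : Fin r, (∑ j : Fin 3, x (vV (i, j)) * x (vW (i, j))) - 1 = 0) ∧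
  (∀ l : Fin s, x (vu l) * x (vu' l) - 1 = 0) ∧
  (∀ l : Fin n, (∑ i : Fin m, x (vx (l, i)) * x (vy (l, i))) - 1 = 0) ∧
  (∀ q : {q : Fin n × Fin n // q.1 ≠ q.2}, (∑ ij : Fin m × Fin m,
      (x (vx (q.1.1, ij.1)) * x (vx (q.1.2, ij.2)) - x (vx (q.1.1, ij.2)) * x (vx (q.1.2, ij.1))) *
        x (vz (q.1, ij))) - 1 = 0) ∧
  (∀ jl : J × Fin n, eval₂ φ (x ∘ emb jl.2) (G jl.1) = 0) ∧
  (∀ _ : Unit, (∑ l : Fin n, x (vl1 l) * x (vl2 l)) - 1 = 0) ∧
  (∀ y : ι, ∑ l : Fin n, x (vl1 l) * eval₂ φ (x ∘ emb l) (Λ y) = 0)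

/-- the equations -/
noncomputable def eqs {O : Type} [CommRing O] {r s m : ℕ} (a b : Fin r → ℤ) {J ι : Type}
    (G : J → Pol O r s m) (Λ : ι → Pol O r s m) (n : ℕ) :
    Set (MvPolynomial (Vars r s m n) O) :=
  (Set.range fun i : Fin r => X (vV (i, 1)) ^ 2 * X (vV (i, 2)) - (X (vV (i, 0)) ^ 3 +
      (a i : MvPolynomial (Vars r s m n) O) * X (vV (i, 0)) * X (vV (i, 2)) ^ 2 +
        (b i : MvPolynomial (Vars r s m n) O) * X (vV (i, 2)) ^ 3)) ∪
  ((Set.range fun i : Fin r => (∑ j : Fin 3, X (vV (i, j)) * X (vW (i, j))) - 1) ∪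
  ((Set.range fun l : Fin s => X (vu l) * X (vu' l) - 1) ∪
  ((Set.range fun l : Fin n => (∑ i : Fin m, X (vx (l, i)) * X (vy (l, i))) - 1) ∪
  ((Set.range fun q : {q : Fin n × Fin n // q.1 ≠ q.2} => (∑ ij : Fin m × Fin m,
      (X (vx (q.1.1, ij.1)) * X (vx (q.1.2, ij.2)) - X (vx (q.1.1, ij.2)) * X (vx (q.1.2, ij.1))) *
        X (vz (q.1, ij))) - 1) ∪
  ((Set.range fun jl : J × Fin n => rename (emb jl.2) (G jl.1)) ∪
  ((Set.range fun _ : Unit => (∑ l : Fin n, X (vl1 l) * X (vl2 l)) - 1) ∪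
  (Set.range fun y : ι => ∑ l : Fin n, X (vl1 l) * rename (emb l) (Λ y))))))))

lemma eqs_iff {O k : Type} [CommRing O] [Field k] (φ : O →+* k) {r s m : ℕ} (a b : Fin r → ℤ)
    {J ι : Type} (G : J → Pol O r s m) (Λ : ι → Pol O r s m) (n : ℕ) (x : Vars r s m n → k) :
    (∀ f ∈ Ideal.span (eqs a b G Λ n), eval₂ φ x f = 0) ↔ Sol φ a b G Λ n x := by
  have h1 : (∀ f ∈ Ideal.span (eqs a b G Λ n), eval₂ φ x f = 0) ↔ ∀ f ∈ eqs a b G Λ n,
      eval₂Hom φ x f = 0 := by
    constructor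
    · intro h f hf
      exact h f (Ideal.subset_span hf)
    · intro h f hf
      have h2 : Ideal.span (eqs a b G Λ n) ≤ RingHom.ker (eval₂Hom φ x) :=
        Ideal.span_le.2 fun g hg => h g hg
      exact h2 hf
  have hr : ∀ (l : Fin n) (g : Pol O r s m),
      eval₂Hom φ x (rename (emb l) g) = eval₂ φ (x ∘ emb l) g := fun l g => by
    rw [coe_eval₂Hom, eval₂_rename]
  rw [h1]
  unfold eqs Sol
  simp only [Set.mem_union, or_imp, forall_and, Set.forall_mem_range, map_sub, map_mul, map_pow,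
    map_add, map_sum, map_one, map_intCast, hr, eval₂Hom_X']

/-- the transfer for a given number of points -/
theorem step {K : Type} [Field K] [NumberField K] {r s m q : ℕ} (a b : Fin r → ℤ)
    (G : Fin q → Pol (𝓞 K) r s m) {ι : Type} (Λ : ι → Pol (𝓞 K) r s m) (σ : K →+* ℂ) (n : ℕ)
    (hG : ∀ (V : Fin r → Fin 3 → ℂ) (u : Fin s → ℂ), OnB a b V u → ∀ T : Fin n → Fin m → ℂ,
      (∀ i, OnF (toC σ) G V u (T i)) → (∀ i j, i ≠ j → ∀ c : ℂ, T i ≠ c • T j) →
        LinearIndependent ℂ (fun i => fun x => vl (toC σ) (Λ x) V u (T i))) :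
    ∃ p₁ : ℕ, ∀ p : ℕ, p.Prime → p₁ ≤ p → ∀ (k : Type) [Field k] [CharP k p] (φ : 𝓞 K →+* k)
      (V : Fin r → Fin 3 → k) (u : Fin s → k), OnB a b V u → ∀ T : Fin n → Fin m → k,
      (∀ i, OnF φ G V u (T i)) → (∀ i j, i ≠ j → ∀ c : k, T i ≠ c • T j) →
        LinearIndependent k (fun i => fun x => vl φ (Λ x) V u (T i)) := by
  by_contra hcon
  push Not at hcon
  obtain ⟨x, hx⟩ := Pool.Agent.W578.SA.TRK.main K (Vars r s m n) (Ideal.span (eqs a b G Λ n)) (by
    intro N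
    obtain ⟨p, hp, hNp, k, hk, hc, φ, V, u, ⟨hV, hu⟩, x, hxF, hxp, hli⟩ := hcon N
    rw [Fintype.not_linearIndependent_iff] at hli
    obtain ⟨lam, hlam, i0, hi0⟩ := hli
    refine ⟨p, hp, hNp, k, hk, hc, φ, ?_⟩
    have hW : ∀ i, ∃ W : Fin 3 → k, ∑ j, V i j * W j = 1 := by
      intro i
      obtain ⟨j, hj⟩ := Function.ne_iff.1 (hV i).1
      refine ⟨Pi.single j (V i j)⁻¹, ?_⟩
      rw [Finset.sum_eq_single j]
      · rw [Pi.single_eq_same]
        exact mul_inv_cancel₀ hj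
      · intro k _ hk
        rw [Pi.single_eq_of_ne hk, mul_zero]
      · intro h
        exact absurd (Finset.mem_univ j) h
    choose W hW using hW
    have hy : ∀ l, ∃ y : Fin m → k, ∑ j, x l j * y j = 1 := by
      intro l
      obtain ⟨j, hj⟩ := Function.ne_iff.1 (hxF l).1
      refine ⟨Pi.single j (x l j)⁻¹, ?_⟩
      rw [Finset.sum_eq_single j]
      · rw [Pi.single_eq_same]
        exact mul_inv_cancel₀ hj
      · intro k _ hk
        rw [Pi.single_eq_of_ne hk, mul_zero]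
      · intro h
        exact absurd (Finset.mem_univ j) h
    choose y hy using hy
    have hz : ∀ q : Fin n × Fin n, ∃ z : Fin m × Fin m → k, q.1 ≠ q.2 →
        ∑ ij : Fin m × Fin m, (x q.1 ij.1 * x q.2 ij.2 - x q.1 ij.2 * x q.2 ij.1) * z ij = 1 := by
      intro q
      by_cases hq : q.1 = q.2
      · exact ⟨0, fun h => absurd hq h⟩
      · obtain ⟨ij, hij⟩ : ∃ ij : Fin m × Fin m,
            x q.1 ij.1 * x q.2 ij.2 - x q.1 ij.2 * x q.2 ij.1 ≠ 0 := by
          by_contra hno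
          push Not at hno
          obtain ⟨j, hj⟩ := Function.ne_iff.1 (hxF q.2).1
          refine hxp q.1 q.2 hq (x q.1 j / x q.2 j) ?_
          funext i
          have h1 := hno (i, j)
          simp only at h1
          have hj' : x q.2 j ≠ 0 := hj
          rw [Pi.smul_apply, smul_eq_mul]
          field_simp
          linear_combination h1
        refine ⟨Pi.single ij (x q.1 ij.1 * x q.2 ij.2 - x q.1 ij.2 * x q.2 ij.1)⁻¹, fun _ => ?_⟩
        rw [Finset.sum_eq_single ij]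
        · rw [Pi.single_eq_same]
          exact mul_inv_cancel₀ hij
        · intro k _ hk
          rw [Pi.single_eq_of_ne hk, mul_zero]
        · intro h
          exact absurd (Finset.mem_univ ij) h
    choose z hz using hz
    have hl' : ∃ lam' : Fin n → k, ∑ l, lam l * lam' l = 1 := by
      refine ⟨Pi.single i0 (lam i0)⁻¹, ?_⟩
      rw [Finset.sum_eq_single i0]
      · rw [Pi.single_eq_same]
        exact mul_inv_cancel₀ hi0
      · intro k _ hk
        rw [Pi.single_eq_of_ne hk, mul_zero]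
      · intro h
        exact absurd (Finset.mem_univ i0) h
    obtain ⟨lam', hlam'⟩ := hl'
    let xx : Vars r s m n → k := Sum.elim (Sum.elim (fun ij => V ij.1 ij.2) (fun ij => W ij.1 ij.2))
      (Sum.elim (Sum.elim u (fun l => (u l)⁻¹))
        (Sum.elim (Sum.elim (fun li => x li.1 li.2) (fun li => y li.1 li.2))
          (Sum.elim (fun q => z q.1 q.2) (Sum.elim lam lam'))))
    have hemb : ∀ l, xx ∘ emb l = Sum.elim (fun ij => V ij.1 ij.2) (Sum.elim u (x l)) := by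
      intro l
      funext w
      rcases w with ij | l | i <;> rfl
    refine ⟨xx, ?_⟩
    rw [eqs_iff]
    refine ⟨fun i => ?_, fun i => ?_, fun l => ?_, fun l => ?_, fun q => ?_, fun jl => ?_,
      fun _ => ?_, fun y => ?_⟩
    · simp only [xx, vV, Sum.elim_inl]
      exact sub_eq_zero.2 (hV i).2
    · simp only [xx, vV, vW, Sum.elim_inl, Sum.elim_inr]
      exact sub_eq_zero.2 (hW i)
    · simp only [xx, vu, vu', Sum.elim_inl, Sum.elim_inr]
      exact sub_eq_zero.2 (mul_inv_cancel₀ (hu l))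
    · simp only [xx, vx, vy, Sum.elim_inl, Sum.elim_inr]
      exact sub_eq_zero.2 (hy l)
    · simp only [xx, vx, vz, Sum.elim_inl, Sum.elim_inr]
      exact sub_eq_zero.2 (hz q.1 q.2)
    · rw [hemb]
      exact (hxF jl.2).2 jl.1
    · simp only [xx, vl1, vl2, Sum.elim_inl, Sum.elim_inr]
      exact sub_eq_zero.2 hlam'
    · have h1 := congrFun hlam y
      rw [Finset.sum_apply] at h1
      refine Eq.trans ?_ h1
      refine Finset.sum_congr rfl fun l _ => ?_
      rw [hemb]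
      rfl) σ
  rw [eqs_iff] at hx
  obtain ⟨h1, h2, h3, h4, h5, h6, hl1, hl2⟩ := hx
  have hV : ∀ i, FD.OnE (a i) (b i) ((fun (i : Fin r) (j : Fin 3) => x (vV (i, j))) i) := by
    intro i
    refine ⟨fun h0 => ?_, sub_eq_zero.1 (h1 i)⟩
    have h7 := h2 i
    have h8 : ∀ j, x (vV (i, j)) = 0 := fun j => congrFun h0 j
    simp [h8] at h7
  have hu : ∀ l, (fun (l : Fin s) => x (vu l)) l ≠ 0 := by
    intro l h0
    have h7 := h3 l
    have h0' : x (vu l) = 0 := h0
    simp [h0'] at h7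
  have hx0 : ∀ l, (fun (l : Fin n) (i : Fin m) => x (vx (l, i))) l ≠ 0 := by
    intro l h0
    have h7 := h4 l
    have h8 : ∀ i, x (vx (l, i)) = 0 := fun i => congrFun h0 i
    simp [h8] at h7
  have hemb : ∀ l, x ∘ emb l = Sum.elim (fun ij => x (vV (ij.1, ij.2)))
      (Sum.elim (fun l => x (vu l)) (fun i => x (vx (l, i)))) := by
    intro l
    funext w
    rcases w with ij | l | i <;> rfl
  have hxG : ∀ l j, vl (toC σ) (G j) (fun (i : Fin r) (j : Fin 3) => x (vV (i, j)))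
      (fun (l : Fin s) => x (vu l))
      ((fun (l : Fin n) (i : Fin m) => x (vx (l, i))) l) = 0 := by
    intro l j
    have h7 := h6 (j, l)
    rw [hemb] at h7
    exact h7
  have hne : ∀ i j : Fin n, i ≠ j → ∀ c : ℂ, (fun (l : Fin n) (i : Fin m) => x (vx (l, i))) i ≠
      c • (fun (l : Fin n) (i : Fin m) => x (vx (l, i))) j := by
    intro l l' hll c hc
    have h7 := h5 ⟨(l, l'), hll⟩
    have h8 : ∀ i, x (vx (l, i)) = c * x (vx (l', i)) := fun i => congrFun hc i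
    simp only [h8] at h7
    rw [Finset.sum_eq_zero] at h7
    · norm_num at h7
    · intro ij _
      ring
  have hli := hG _ _ ⟨hV, hu⟩ (fun (l : Fin n) (i : Fin m) => x (vx (l, i)))
    (fun l => ⟨hx0 l, hxG l⟩) hne
  rw [Fintype.linearIndependent_iff] at hli
  have h9 := hli (fun l => x (vl1 l)) (by
    funext y
    rw [Finset.sum_apply]
    have h10 := hl2 y
    rw [Pi.zero_apply, ← h10]
    refine Finset.sum_congr rfl fun l _ => ?_
    rw [hemb]
    rfl)
  have h10 := hl1 ()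
  have h11 : ∀ l, x (vl1 l) = 0 := h9
  simp [h11] at h10

theorem main : S_TSF := by
  intro K _ _ r s m q a b G ι _ Λ k₀ σ hG
  have h1 : ∀ n : ℕ, ∃ p₁ : ℕ, n ≤ k₀ → ∀ p : ℕ, p.Prime → p₁ ≤ p → ∀ (k : Type) [Field k]
      [CharP k p] (φ : 𝓞 K →+* k)
      (V : Fin r → Fin 3 → k) (u : Fin s → k), OnB a b V u → ∀ T : Fin n → Fin m → k,
      (∀ i, OnF φ G V u (T i)) → (∀ i j, i ≠ j → ∀ c : k, T i ≠ c • T j) →
        LinearIndependent k (fun i => fun x => vl φ (Λ x) V u (T i)) := by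
    intro n
    by_cases hn : n ≤ k₀
    · obtain ⟨p₁, h⟩ := step a b G Λ σ n fun V u hB T => hG V u hB n hn T
      exact ⟨p₁, fun _ => h⟩
    · exact ⟨0, fun h => absurd h hn⟩
  choose P hP using h1
  refine ⟨(Finset.range (k₀ + 1)).sup P, fun p hp hpp k _ _ φ V u hB l hl T hT hne => ?_⟩
  refine hP l hl p hp ?_ k φ V u hB T hT hne
  exact (Finset.le_sup (f := P) (Finset.mem_range.2 (Nat.lt_succ_of_le hl))).trans hpp

end Pool.Agent.N457.GS.TSF
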